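import Mathlib

namespace Pool.Agent.Results.MP_cc5630_nt.GrowthOrder

open Finset

/-- A finite set `M` of integers `> 1` is a covering set if one can choose a residue `a n` modulo
`n` for each `n ∈ M` so that each integer `z` satisfies `z ≡ a n (mod n)` for some `n ∈ M`. -/
def IsCoveringSet (M : Finset ℕ) : Prop :=
  (∀ n ∈ M, 1 < n) ∧ ∃ a : ℕ → ℤ, ∀ z : ℤ, ∃ n ∈ M, z ≡ a n [ZMOD (n : ℤ)]

/-- A covering set is irreducible if none of its proper subsets is a covering set. -/
def IsIrreducibleCoveringSet (M : Finset ℕ) : Prop :=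
  IsCoveringSet M ∧ ∀ M' : Finset ℕ, M' ⊂ M → ¬ IsCoveringSet M'

/-- The sum of the reciprocals of the elements of `M`. -/
noncomputable def reciprocalSum (M : Finset ℕ) : ℝ := ∑ n ∈ M, (1 : ℝ) / n

/-- The quantity `M(k)`: the largest value of the sum of `1/n` over an irreducible covering set
with exactly `k` elements, and `0` if there is no such set (the supremum of the empty set of reals
is `0` in Mathlib). -/
noncomputable def maxReciprocalSum (k : ℕ) : ℝ :=
  sSup {s : ℝ | ∃ M : Finset ℕ, IsIrreducibleCoveringSet M ∧ M.card = k ∧ reciprocalSum M = s}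

/-- Auxiliary notion for the construction. `NC B m`: the moduli in `B` divide `m`, they can be
given residues so that everything except possibly the class `0` modulo `m` is covered, they never
cover everything, and if one of them is deleted then for each choice of residues at least two
classes modulo `m` contain uncovered integers. -/
structure NC (B : Finset ℕ) (m : ℕ) : Prop where
  pos : 0 < m
  dvd : ∀ n ∈ B, n ∣ m
  one_lt : ∀ n ∈ B, 1 < n
  cov : ∃ a : ℕ → ℤ, ∀ z : ℤ, (∃ n ∈ B, z ≡ a n [ZMOD (n : ℤ)]) ∨ (m : ℤ) ∣ z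
  unc : ∀ a : ℕ → ℤ, ∃ u : ℤ, ∀ n ∈ B, ¬ u ≡ a n [ZMOD (n : ℤ)]
  two : ∀ b ∈ B, ∀ a : ℕ → ℤ, ∃ u v : ℤ, ¬ u ≡ v [ZMOD (m : ℤ)] ∧
    (∀ n ∈ B.erase b, ¬ u ≡ a n [ZMOD (n : ℤ)]) ∧ (∀ n ∈ B.erase b, ¬ v ≡ a n [ZMOD (n : ℤ)])

lemma NC.empty : NC ∅ 1 where
  pos := one_pos
  dvd := by simp
  one_lt := by simp
  cov := ⟨fun _ => 0, fun z => Or.inr (by simp)⟩
  unc := fun a => ⟨0, by simp⟩
  two := by simp

/-- The number of points `u + t m`, `t < p`, covered by moduli divisible by `p^(v+1)` is at most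
the number of these moduli. -/
lemma fiber_card {p v m' : ℕ} (hp : p.Prime) (hm' : ¬ p ∣ m') (C : Finset ℕ)
    (hC : ∀ n ∈ C, p ^ (v + 1) ∣ n) (a : ℕ → ℤ) (u : ℤ) :
    ((range p).filter (fun t : ℕ => ∃ n ∈ C, u + t * ((p ^ v * m' : ℕ) : ℤ) ≡ a n [ZMOD (n : ℤ)])).card
      ≤ C.card := by
  classical
  have hch : ∀ t : ℕ, ∃ n : ℕ, t ∈ ((range p).filter (fun t : ℕ => ∃ n ∈ C,
      u + t * ((p ^ v * m' : ℕ) : ℤ) ≡ a n [ZMOD (n : ℤ)])) → (n ∈ C ∧
      u + t * ((p ^ v * m' : ℕ) : ℤ) ≡ a n [ZMOD (n : ℤ)]) := by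
    intro t
    by_cases ht : t ∈ ((range p).filter (fun t : ℕ => ∃ n ∈ C,
      u + t * ((p ^ v * m' : ℕ) : ℤ) ≡ a n [ZMOD (n : ℤ)]))
    · obtain ⟨n, hn, h⟩ := (mem_filter.mp ht).2
      exact ⟨n, fun _ => ⟨hn, h⟩⟩
    · exact ⟨0, fun h => absurd h ht⟩
  choose f hf using hch
  refine Finset.card_le_card_of_injOn f (fun t ht => (hf t ht).1) ?_
  intro t ht t' ht' heq
  have h1 := (hf t ht).2
  have h2 := (hf t' ht').2
  have hn := hC _ (hf t ht).1
  rw [← heq] at h2
  have h3 : u + t * ((p ^ v * m' : ℕ) : ℤ) ≡ u + t' * ((p ^ v * m' : ℕ) : ℤ) [ZMOD (f t : ℤ)] :=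
    h1.trans h2.symm
  have h4 := h3.dvd
  have h5 : ((p ^ (v + 1) : ℕ) : ℤ) ∣ (u + t' * ((p ^ v * m' : ℕ) : ℤ)) - (u + t * ((p ^ v * m' : ℕ) : ℤ)) :=
    dvd_trans (by exact_mod_cast hn) h4
  have h6 : (u + t' * ((p ^ v * m' : ℕ) : ℤ)) - (u + t * ((p ^ v * m' : ℕ) : ℤ)) =
      (p : ℤ) ^ v * (((t' : ℤ) - t) * m') := by
    push_cast; ring
  rw [h6] at h5
  have h7 : (p : ℤ) ∣ ((t' : ℤ) - t) * m' := by
    have hp0 : ((p : ℤ) ^ v) ≠ 0 := pow_ne_zero _ (by exact_mod_cast hp.ne_zero)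
    have : ((p : ℤ) ^ v) * p ∣ (p : ℤ) ^ v * (((t' : ℤ) - t) * m') := by
      convert h5 using 1
      push_cast; ring
    exact (mul_dvd_mul_iff_left hp0).mp this
  have hpI : Prime (p : ℤ) := Nat.prime_iff_prime_int.mp hp
  rcases hpI.dvd_or_dvd h7 with h8 | h8
  · have hb : |(t' : ℤ) - t| < p := by
      have ha1 := mem_range.mp (mem_filter.mp ht).1
      have ha2 := mem_range.mp (mem_filter.mp ht').1
      rw [abs_lt]; constructor <;> omega
    have := Int.eq_zero_of_abs_lt_dvd h8 hb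
    omega
  · exact absurd (by exact_mod_cast h8) hm'

/-- If there are fewer than `p` moduli in `C`, then some point of the fibre is uncovered. -/
lemma fiber_one {p v m' : ℕ} (hp : p.Prime) (hm' : ¬ p ∣ m') (C : Finset ℕ)
    (hC : ∀ n ∈ C, p ^ (v + 1) ∣ n) (hcard : C.card + 1 ≤ p) (a : ℕ → ℤ) (u : ℤ) :
    ∃ t : ℕ, t < p ∧ ∀ n ∈ C, ¬ u + t * ((p ^ v * m' : ℕ) : ℤ) ≡ a n [ZMOD (n : ℤ)] := by
  classical
  by_contra hcon
  push Not at hcon
  have h := fiber_card hp hm' C hC a u
  rw [filter_true_of_mem (fun t ht => hcon t (mem_range.mp ht)), card_range] at h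
  omega

/-- If there are fewer than `p - 1` moduli in `C`, then two points of the fibre are uncovered. -/
lemma fiber_two {p v m' : ℕ} (hp : p.Prime) (hm' : ¬ p ∣ m') (C : Finset ℕ)
    (hC : ∀ n ∈ C, p ^ (v + 1) ∣ n) (hcard : C.card + 2 ≤ p) (a : ℕ → ℤ) (u : ℤ) :
    ∃ t t' : ℕ, t < t' ∧ t' < p ∧
      (∀ n ∈ C, ¬ u + t * ((p ^ v * m' : ℕ) : ℤ) ≡ a n [ZMOD (n : ℤ)]) ∧
      (∀ n ∈ C, ¬ u + t' * ((p ^ v * m' : ℕ) : ℤ) ≡ a n [ZMOD (n : ℤ)]) := by
  classical
  have h := fiber_card hp hm' C hC a u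
  have h2 := Finset.card_filter_add_card_filter_not (s := range p)
    (fun t : ℕ => ∃ n ∈ C, u + t * ((p ^ v * m' : ℕ) : ℤ) ≡ a n [ZMOD (n : ℤ)])
  rw [card_range] at h2
  have h3 : 1 < ((range p).filter (fun t : ℕ => ¬ ∃ n ∈ C,
      u + t * ((p ^ v * m' : ℕ) : ℤ) ≡ a n [ZMOD (n : ℤ)])).card := by omega
  obtain ⟨t, ht, t', ht', hne⟩ := Finset.one_lt_card.mp h3
  rw [mem_filter, mem_range] at ht ht'
  rcases lt_or_gt_of_ne hne with hlt | hlt
  · exact ⟨t, t', hlt, ht'.1, fun n hn hh => ht.2 ⟨n, hn, hh⟩, fun n hn hh => ht'.2 ⟨n, hn, hh⟩⟩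
  · exact ⟨t', t, hlt, ht.1, fun n hn hh => ht'.2 ⟨n, hn, hh⟩, fun n hn hh => ht.2 ⟨n, hn, hh⟩⟩

/-- Points in the fibre over `u` have the same residues modulo divisors of `m`. -/
lemma shift_modEq {m n : ℕ} (h : n ∣ m) (u : ℤ) (t : ℕ) (x : ℤ) :
    u + t * (m : ℤ) ≡ x [ZMOD (n : ℤ)] ↔ u ≡ x [ZMOD (n : ℤ)] := by
  have h1 : u + t * (m : ℤ) ≡ u [ZMOD (n : ℤ)] := by
    have : (t : ℤ) * (m : ℤ) ≡ 0 [ZMOD (n : ℤ)] :=
      (Int.modEq_zero_iff_dvd).mpr (Dvd.dvd.mul_left (by exact_mod_cast h) _)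
    simpa using (Int.ModEq.refl u).add this
  exact ⟨fun h2 => h1.symm.trans h2, fun h2 => h1.trans h2⟩


lemma exists_idx (D : Finset ℕ) : ∃ idx : ℕ → ℕ, ∀ r < D.card, ∃ d ∈ D, idx d = r := by
  classical
  refine ⟨fun d => if h : d ∈ D then (D.equivFin ⟨d, h⟩ : ℕ) else 0, fun r hr => ?_⟩
  refine ⟨(D.equivFin.symm ⟨r, hr⟩ : ℕ), (D.equivFin.symm ⟨r, hr⟩).2, ?_⟩
  simp

/-- The class of `t * m` modulo `p^(v+1) * d`, where `d ∣ m'`, `m = p^v m'`. -/
lemma class_aux {p v m' d : ℕ} (hd : d ∣ m') (z t : ℤ) (r : ℕ)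
    (hz : z = t * ((p ^ v * m' : ℕ) : ℤ)) (hr : (p : ℤ) ∣ t - r) :
    z ≡ (r : ℤ) * ((p ^ v * m' : ℕ) : ℤ) [ZMOD ((p ^ (v + 1) * d : ℕ) : ℤ)] := by
  apply Int.ModEq.symm
  rw [Int.modEq_iff_dvd]
  obtain ⟨c, hc⟩ := hr
  obtain ⟨e, he⟩ := hd
  refine ⟨c * e, ?_⟩
  rw [hz, he]
  have ht : t = r + p * c := by linarith
  rw [ht]
  push_cast
  ring

lemma not_mem_of_dvd {B : Finset ℕ} {p v m' : ℕ} (hp : p.Prime) (hm' : ¬ p ∣ m')
    (hB : ∀ n ∈ B, n ∣ p ^ v * m') {n : ℕ} (hn : p ^ (v + 1) ∣ n) : n ∉ B := by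
  intro h
  have h1 : p ^ (v + 1) ∣ p ^ v * m' := dvd_trans hn (hB n h)
  rw [pow_succ] at h1
  exact hm' ((mul_dvd_mul_iff_left (pow_ne_zero _ hp.ne_zero)).mp h1)

/-- One step of the chain construction. -/
lemma NC.step {B : Finset ℕ} {p v m' : ℕ} (h : NC B (p ^ v * m')) (hp : p.Prime)
    (hm' : ¬ p ∣ m') (D : Finset ℕ) (hD : ∀ d ∈ D, d ∣ m') (hcard : D.card + 1 = p) :
    NC (B ∪ D.image (fun d => p ^ (v + 1) * d)) (p ^ (v + 1) * m') := by
  classical
  have hm'0 : m' ≠ 0 := by rintro rfl; exact hm' (dvd_zero _)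
  have hCdvd : ∀ n ∈ D.image (fun d => p ^ (v + 1) * d), p ^ (v + 1) ∣ n := by
    intro n hn
    obtain ⟨d, _, rfl⟩ := mem_image.mp hn
    exact dvd_mul_right _ _
  have hCcard : (D.image (fun d => p ^ (v + 1) * d)).card + 1 ≤ p := by
    have := card_image_le (s := D) (f := fun d => p ^ (v + 1) * d)
    omega
  have hB : ∀ n ∈ B, n ∣ p ^ v * m' := h.dvd
  have hdisj : ∀ n ∈ D.image (fun d => p ^ (v + 1) * d), n ∉ B := fun n hn =>
    not_mem_of_dvd hp hm' hB (hCdvd n hn)
  have hppos := hp.pos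
  refine ⟨Nat.mul_pos (pow_pos hp.pos _) (Nat.pos_of_ne_zero hm'0), ?_, ?_, ?_, ?_, ?_⟩
  · intro n hn
    rcases mem_union.mp hn with hn | hn
    · refine dvd_trans (hB n hn) ⟨p, ?_⟩
      rw [pow_succ]; ring
    · obtain ⟨d, hd, rfl⟩ := mem_image.mp hn
      exact mul_dvd_mul_left _ (hD d hd)
  · intro n hn
    rcases mem_union.mp hn with hn | hn
    · exact h.one_lt n hn
    · obtain ⟨d, hd, rfl⟩ := mem_image.mp hn
      have hd0 : d ≠ 0 := by
        rintro rfl
        exact hm'0 (Nat.eq_zero_of_zero_dvd (hD 0 hd))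
      have : 1 < p ^ (v + 1) := Nat.one_lt_pow (Nat.succ_ne_zero v) hp.one_lt
      calc 1 < p ^ (v + 1) := this
        _ ≤ p ^ (v + 1) * d := Nat.le_mul_of_pos_right _ (Nat.pos_of_ne_zero hd0)
  · obtain ⟨a, ha⟩ := h.cov
    obtain ⟨idx, hidx⟩ := exists_idx D
    refine ⟨fun n => if n ∈ B then a n else
      ((idx (n / p ^ (v + 1)) + 1 : ℕ) : ℤ) * ((p ^ v * m' : ℕ) : ℤ), fun z => ?_⟩
    rcases ha z with ⟨n, hn, hz⟩ | hz
    · left
      exact ⟨n, mem_union_left _ hn, by simp only [if_pos hn]; exact hz⟩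
    · obtain ⟨t, ht⟩ := hz
      have ht' : z = t * ((p ^ v * m' : ℕ) : ℤ) := by rw [ht]; ring
      by_cases hpt : (p : ℤ) ∣ t
      · right
        obtain ⟨c, hc⟩ := hpt
        refine ⟨c, ?_⟩
        rw [ht', hc, pow_succ]
        push_cast
        ring
      · left
        -- r = t mod p
        set r : ℕ := (t % (p : ℤ)).toNat with hr
        have hp0 : (p : ℤ) ≠ 0 := by exact_mod_cast hp.ne_zero
        have hr1 : (r : ℤ) = t % (p : ℤ) := Int.toNat_of_nonneg (Int.emod_nonneg _ hp0)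
        have hr2 : t % (p : ℤ) < p := Int.emod_lt_of_pos _ (by exact_mod_cast hp.pos)
        have hr3 : t % (p : ℤ) ≠ 0 := fun h0 => hpt (Int.dvd_of_emod_eq_zero h0)
        have hr4 : 1 ≤ r := by
          rcases Nat.eq_zero_or_pos r with h0 | h0
          · exfalso; apply hr3; rw [← hr1, h0]; rfl
          · exact h0
        have hr5 : r < p := by
          have : (r : ℤ) < p := by rw [hr1]; exact hr2
          exact_mod_cast this
        obtain ⟨d, hd, hdr⟩ := hidx (r - 1) (by omega)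
        have hmem : p ^ (v + 1) * d ∈ D.image (fun d => p ^ (v + 1) * d) :=
          mem_image_of_mem _ hd
        refine ⟨p ^ (v + 1) * d, mem_union_right _ hmem, ?_⟩
        simp only [if_neg (hdisj _ hmem)]
        have hq : p ^ (v + 1) * d / p ^ (v + 1) = d :=
          Nat.mul_div_cancel_left _ (pow_pos hp.pos _)
        rw [hq, hdr]
        have hr6 : r - 1 + 1 = r := by omega
        rw [hr6]
        refine class_aux (hD d hd) z t r ht' ?_
        rw [hr1]
        exact Int.dvd_self_sub_emod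
  · intro a
    obtain ⟨u, hu⟩ := h.unc a
    obtain ⟨t, _, ht⟩ := fiber_one hp hm' _ hCdvd hCcard a u
    refine ⟨u + t * ((p ^ v * m' : ℕ) : ℤ), fun n hn => ?_⟩
    rcases mem_union.mp hn with hn | hn
    · rw [shift_modEq (hB n hn)]
      exact hu n hn
    · exact ht n hn
  · intro b hb a
    by_cases hbB : b ∈ B
    · obtain ⟨u, w, huw, hu, hw⟩ := h.two b hbB a
      obtain ⟨t, _, ht⟩ := fiber_one hp hm' _ hCdvd hCcard a u
      obtain ⟨s, _, hs⟩ := fiber_one hp hm' _ hCdvd hCcard a w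
      refine ⟨u + t * ((p ^ v * m' : ℕ) : ℤ), w + s * ((p ^ v * m' : ℕ) : ℤ), ?_, ?_, ?_⟩
      · intro hcon
        apply huw
        have h1 : u + t * ((p ^ v * m' : ℕ) : ℤ) ≡ w + s * ((p ^ v * m' : ℕ) : ℤ)
            [ZMOD ((p ^ v * m' : ℕ) : ℤ)] := by
          refine hcon.of_dvd ?_
          exact_mod_cast (show p ^ v * m' ∣ p ^ (v + 1) * m' from ⟨p, by rw [pow_succ]; ring⟩)
        rw [shift_modEq dvd_rfl] at h1
        exact ((shift_modEq dvd_rfl w s u).mp h1.symm).symm
      · intro n hn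
        rcases mem_union.mp (mem_of_mem_erase hn) with hn' | hn'
        · rw [shift_modEq (hB n hn')]
          exact hu n (mem_erase.mpr ⟨(mem_erase.mp hn).1, hn'⟩)
        · exact ht n hn'
      · intro n hn
        rcases mem_union.mp (mem_of_mem_erase hn) with hn' | hn'
        · rw [shift_modEq (hB n hn')]
          exact hw n (mem_erase.mpr ⟨(mem_erase.mp hn).1, hn'⟩)
        · exact hs n hn'
    · have hbC : b ∈ D.image (fun d => p ^ (v + 1) * d) := by
        rcases mem_union.mp hb with h1 | h1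
        · exact absurd h1 hbB
        · exact h1
      obtain ⟨u, hu⟩ := h.unc a
      obtain ⟨t, t', htt, htp, ht1, ht2⟩ := fiber_two hp hm'
        ((D.image (fun d => p ^ (v + 1) * d)).erase b)
        (fun n hn => hCdvd n (mem_of_mem_erase hn))
        (by
          have := card_erase_of_mem hbC
          have := card_pos.mpr ⟨b, hbC⟩
          omega) a u
      refine ⟨u + t * ((p ^ v * m' : ℕ) : ℤ), u + t' * ((p ^ v * m' : ℕ) : ℤ), ?_, ?_, ?_⟩
      · intro hcon
        have h1 := hcon.dvd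
        have h2 : (u + t' * ((p ^ v * m' : ℕ) : ℤ)) - (u + t * ((p ^ v * m' : ℕ) : ℤ)) =
            ((p ^ v * m' : ℕ) : ℤ) * ((t' : ℤ) - t) := by ring
        rw [h2] at h1
        have h3 : ((p ^ (v + 1) * m' : ℕ) : ℤ) = ((p ^ v * m' : ℕ) : ℤ) * p := by
          push_cast; ring
        rw [h3] at h1
        have h4 : ((p ^ v * m' : ℕ) : ℤ) ≠ 0 := by
          have : p ^ v * m' ≠ 0 := Nat.mul_ne_zero (pow_ne_zero _ hp.ne_zero) hm'0
          exact_mod_cast this
        have h5 := (mul_dvd_mul_iff_left h4).mp h1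
        have h6 := Int.eq_zero_of_abs_lt_dvd h5 (by rw [abs_lt]; constructor <;> omega)
        omega
      · intro n hn
        rcases mem_union.mp (mem_of_mem_erase hn) with hn' | hn'
        · rw [shift_modEq (hB n hn')]
          exact hu n hn'
        · exact ht1 n (mem_erase.mpr ⟨(mem_erase.mp hn).1, hn'⟩)
      · intro n hn
        rcases mem_union.mp (mem_of_mem_erase hn) with hn' | hn'
        · rw [shift_modEq (hB n hn')]
          exact hu n hn'
        · exact ht2 n (mem_erase.mpr ⟨(mem_erase.mp hn).1, hn'⟩)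

/-- A set is not covering as soon as one integer is uncovered for each choice of residues. -/
lemma not_covering_of_erase {S : Finset ℕ}
    (h : ∀ b ∈ S, ∀ a : ℕ → ℤ, ∃ u : ℤ, ∀ n ∈ S.erase b, ¬ u ≡ a n [ZMOD (n : ℤ)]) :
    ∀ M' : Finset ℕ, M' ⊂ S → ¬ IsCoveringSet M' := by
  intro M' hM' ⟨_, a, ha⟩
  obtain ⟨b, hb, hs⟩ := Finset.ssubset_iff_exists_subset_erase.mp hM'
  obtain ⟨u, hu⟩ := h b hb a
  obtain ⟨n, hn, hun⟩ := ha u
  exact hu n (hs hn) hun

/-- The final step: closing the hole with `P` moduli `P * d`, `d ∈ D`, where `m ∈ D`. -/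
lemma NC.close {B : Finset ℕ} {m : ℕ} (h : NC B m) {P : ℕ} (hP : P.Prime) (hPm : ¬ P ∣ m)
    (D : Finset ℕ) (hD : ∀ d ∈ D, d ∣ m) (hmD : m ∈ D) (hcard : D.card = P) :
    IsIrreducibleCoveringSet (B ∪ D.image (fun d => P * d)) := by
  classical
  have hm0 : m ≠ 0 := h.pos.ne'
  have hm1 : P ^ 0 * m = m := by simp
  have hCdvd : ∀ n ∈ D.image (fun d => P * d), P ^ (0 + 1) ∣ n := by
    intro n hn
    obtain ⟨d, _, rfl⟩ := mem_image.mp hn
    simp
  have hCcard : (D.image (fun d => P * d)).card ≤ P := by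
    have := card_image_le (s := D) (f := fun d => P * d)
    omega
  have hB : ∀ n ∈ B, n ∣ m := h.dvd
  have hdisj : ∀ n ∈ D.image (fun d => P * d), n ∉ B := fun n hn =>
    not_mem_of_dvd (v := 0) hP hPm (by rw [hm1]; exact hB) (hCdvd n hn)
  refine ⟨⟨?_, ?_⟩, ?_⟩
  · intro n hn
    rcases mem_union.mp hn with hn | hn
    · exact h.one_lt n hn
    · obtain ⟨d, hd, rfl⟩ := mem_image.mp hn
      have hd0 : d ≠ 0 := by
        rintro rfl
        exact hm0 (Nat.eq_zero_of_zero_dvd (hD 0 hd))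
      calc 1 < P := hP.one_lt
        _ ≤ P * d := Nat.le_mul_of_pos_right _ (Nat.pos_of_ne_zero hd0)
  · obtain ⟨a, ha⟩ := h.cov
    obtain ⟨idx, hidx⟩ := exists_idx D
    refine ⟨fun n => if n ∈ B then a n else
      ((idx (n / P) : ℕ) : ℤ) * ((P ^ 0 * m : ℕ) : ℤ), fun z => ?_⟩
    rcases ha z with ⟨n, hn, hz⟩ | hz
    · exact ⟨n, mem_union_left _ hn, by simp only [if_pos hn]; exact hz⟩
    · obtain ⟨t, ht⟩ := hz
      have ht' : z = t * ((P ^ 0 * m : ℕ) : ℤ) := by rw [ht, hm1]; ring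
      set r : ℕ := (t % (P : ℤ)).toNat with hr
      have hp0 : (P : ℤ) ≠ 0 := by exact_mod_cast hP.ne_zero
      have hr1 : (r : ℤ) = t % (P : ℤ) := Int.toNat_of_nonneg (Int.emod_nonneg _ hp0)
      have hr2 : t % (P : ℤ) < P := Int.emod_lt_of_pos _ (by exact_mod_cast hP.pos)
      have hr5 : r < P := by
        have : (r : ℤ) < P := by rw [hr1]; exact hr2
        exact_mod_cast this
      obtain ⟨d, hd, hdr⟩ := hidx r (by omega)
      have hmem : P * d ∈ D.image (fun d => P * d) := mem_image_of_mem _ hd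
      refine ⟨P * d, mem_union_right _ hmem, ?_⟩
      simp only [if_neg (hdisj _ hmem)]
      have hq : P * d / P = d := Nat.mul_div_cancel_left _ hP.pos
      rw [hq, hdr]
      have := class_aux (p := P) (v := 0) (hD d hd) z t r ht' (by
        rw [hr1]; exact Int.dvd_self_sub_emod)
      simpa using this
  · apply not_covering_of_erase
    intro b hb a
    by_cases hbB : b ∈ B
    · obtain ⟨u, w, huw, hu, hw⟩ := h.two b hbB a
      -- the modulus `P * m` misses one of the two fibres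
      have key : ∀ x : ℤ, ¬ a (P * m) ≡ x [ZMOD (m : ℤ)] →
          (∀ n ∈ B.erase b, ¬ x ≡ a n [ZMOD (n : ℤ)]) →
          ∃ u : ℤ, ∀ n ∈ (B ∪ D.image (fun d => P * d)).erase b, ¬ u ≡ a n [ZMOD (n : ℤ)] := by
        intro x hx hxB
        obtain ⟨t, _, ht⟩ := fiber_one (v := 0) hP hPm ((D.image (fun d => P * d)).erase (P * m))
          (fun n hn => hCdvd n (mem_of_mem_erase hn))
          (by
            have hmm : P * m ∈ D.image (fun d => P * d) := mem_image_of_mem _ hmD
            have := card_erase_of_mem hmm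
            have := card_pos.mpr ⟨_, hmm⟩
            omega) a x
        refine ⟨x + t * ((P ^ 0 * m : ℕ) : ℤ), fun n hn => ?_⟩
        rcases mem_union.mp (mem_of_mem_erase hn) with hn' | hn'
        · rw [hm1, shift_modEq (hB n hn')]
          exact hxB n (mem_erase.mpr ⟨(mem_erase.mp hn).1, hn'⟩)
        · by_cases hnm : n = P * m
          · subst hnm
            intro hcon
            apply hx
            have h1 : x + t * ((P ^ 0 * m : ℕ) : ℤ) ≡ a (P * m) [ZMOD (m : ℤ)] := by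
              refine hcon.of_dvd ?_
              push_cast
              exact dvd_mul_left _ _
            rw [hm1] at h1
            rw [shift_modEq dvd_rfl] at h1
            exact h1.symm
          · exact ht n (mem_erase.mpr ⟨hnm, hn'⟩)
      by_cases hau : a (P * m) ≡ u [ZMOD (m : ℤ)]
      · exact key w (fun haw => huw (hau.symm.trans haw)) hw
      · exact key u hau hu
    · have hbC : b ∈ D.image (fun d => P * d) := by
        rcases mem_union.mp hb with h1 | h1
        · exact absurd h1 hbB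
        · exact h1
      obtain ⟨u, hu⟩ := h.unc a
      obtain ⟨t, _, ht⟩ := fiber_one (v := 0) hP hPm
        ((D.image (fun d => P * d)).erase b)
        (fun n hn => hCdvd n (mem_of_mem_erase hn))
        (by
          have := card_erase_of_mem hbC
          have := card_pos.mpr ⟨b, hbC⟩
          omega) a u
      refine ⟨u + t * ((P ^ 0 * m : ℕ) : ℤ), fun n hn => ?_⟩
      rcases mem_union.mp (mem_of_mem_erase hn) with hn' | hn'
      · rw [hm1, shift_modEq (hB n hn')]
        exact hu n hn'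
      · exact ht n (mem_erase.mpr ⟨(mem_erase.mp hn).1, hn'⟩)


/-- A nonempty chain step bookkeeping: disjointness of the new moduli. -/
lemma step_disjoint {B : Finset ℕ} {p v m' : ℕ} (hp : p.Prime) (hm' : ¬ p ∣ m')
    (hB : ∀ n ∈ B, n ∣ p ^ v * m') (D : Finset ℕ) :
    Disjoint B (D.image (fun d => p ^ (v + 1) * d)) := by
  rw [Finset.disjoint_right]
  intro n hn
  obtain ⟨d, _, rfl⟩ := mem_image.mp hn
  exact not_mem_of_dvd hp hm' hB (dvd_mul_right _ _)

lemma image_card {q : ℕ} (hq : 0 < q) (D : Finset ℕ) :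
    (D.image (fun d => q * d)).card = D.card :=
  card_image_of_injective _ (fun _ _ h => Nat.eq_of_mul_eq_mul_left hq h)

open ArithmeticFunction in
/-- The chain over all prime powers up to `N`. -/
lemma chain (N : ℕ) (hN : 1 ≤ N) : ∃ (B : Finset ℕ) (m : ℕ), NC B m ∧
    (∀ r c : ℕ, r.Prime → (r ^ c ∣ m ↔ r ^ c ≤ N)) ∧
    (∑ j ∈ Icc 1 N, (vonMangoldt j : ℝ) / j ≤ ∑ n ∈ B, (1 : ℝ) / n) ∧
    2 * B.card ≤ N * (N + 1) := by
  classical
  induction N, hN using Nat.le_induction with
  | base =>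
    refine ⟨∅, 1, NC.empty, ?_, ?_, ?_⟩
    · intro r c hr
      rw [Nat.dvd_one]
      constructor
      · intro h; rw [h]
      · intro h
        exact le_antisymm h (Nat.one_le_pow _ _ hr.pos)
    · simp
    · simp
  | succ N hN ih =>
    obtain ⟨B, m, hNC, hm, hsum, hcard⟩ := ih
    by_cases hpp : IsPrimePow (N + 1)
    · obtain ⟨p, k, hp', hk, hpk⟩ := hpp
      have hp : p.Prime := Nat.prime_iff.mpr hp'
      obtain ⟨v, rfl⟩ : ∃ v, k = v + 1 := ⟨k - 1, by omega⟩
      have hvlt : p ^ v < p ^ (v + 1) := Nat.pow_lt_pow_right hp.one_lt (Nat.lt_succ_self v)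
      have hv : p ^ v ∣ m := (hm p v hp).mpr (by omega)
      obtain ⟨m', rfl⟩ := hv
      have hm' : ¬ p ∣ m' := by
        intro hcon
        have : p ^ (v + 1) ∣ p ^ v * m' := by
          rw [pow_succ]; exact mul_dvd_mul_left _ hcon
        have := (hm p (v + 1) hp).mp this
        omega
      have hpN : p ≤ N + 1 := by
        rw [← hpk]; exact Nat.le_self_pow (Nat.succ_ne_zero v) p
      have hD : ∀ d ∈ Icc 1 (p - 1), d ∣ m' := by
        intro d hd
        rw [mem_Icc] at hd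
        have hp2 := hp.two_le
        have h1 : d ∣ p ^ v * m' := by
          rw [Nat.dvd_iff_prime_pow_dvd_dvd]
          intro r c hr hrc
          refine (hm r c hr).mpr ?_
          have := Nat.le_of_dvd (by omega) hrc
          omega
        have hcop : Nat.Coprime d p := by
          rw [Nat.coprime_comm, hp.coprime_iff_not_dvd]
          intro hcon
          have := Nat.le_of_dvd (by omega) hcon
          omega
        exact (Nat.Coprime.dvd_mul_left (hcop.pow_right v)).mp h1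
      have hDc : (Icc 1 (p - 1)).card + 1 = p := by
        have := hp.two_le
        rw [Nat.card_Icc]; omega
      have hdisj := step_disjoint hp hm' hNC.dvd (Icc 1 (p - 1))
      refine ⟨B ∪ (Icc 1 (p - 1)).image (fun d => p ^ (v + 1) * d), p ^ (v + 1) * m',
        hNC.step hp hm' _ hD hDc, ?_, ?_, ?_⟩
      · intro r c hr
        by_cases hrp : r = p
        · subst hrp
          rw [← hpk, Nat.pow_le_pow_iff_right hr.one_lt]
          constructor
          · intro h
            by_contra hcon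
            have h1 : r ^ (v + 2) ∣ r ^ (v + 1) * m' :=
              dvd_trans (pow_dvd_pow r (by omega)) h
            rw [pow_succ r (v + 1)] at h1
            exact hm' ((mul_dvd_mul_iff_left (pow_ne_zero _ hr.ne_zero)).mp h1)
          · intro h
            exact dvd_mul_of_dvd_left (pow_dvd_pow r h) _
        · have hcop : Nat.Coprime r p := (Nat.coprime_primes hr hp).mpr hrp
          have e1 : r ^ c ∣ p ^ (v + 1) * m' ↔ r ^ c ∣ m' :=
            Nat.Coprime.dvd_mul_left (Nat.Coprime.pow c (v + 1) hcop)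
          have e2 : r ^ c ∣ p ^ v * m' ↔ r ^ c ∣ m' :=
            Nat.Coprime.dvd_mul_left (Nat.Coprime.pow c v hcop)
          rw [e1, ← e2, hm r c hr]
          constructor
          · intro h; omega
          · intro h
            rcases Nat.lt_or_ge (r ^ c) (N + 1) with h1 | h1
            · omega
            · exfalso
              have h2 : r ^ c = p ^ (v + 1) := by omega
              have hc0 : c ≠ 0 := by
                rintro rfl
                rw [pow_zero] at h2
                have := Nat.one_lt_pow (Nat.succ_ne_zero v) hp.one_lt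
                omega
              have h3 : r ∣ p ^ (v + 1) := by rw [← h2]; exact dvd_pow_self r hc0
              exact hrp ((Nat.prime_dvd_prime_iff_eq hr hp).mp (hr.dvd_of_dvd_pow h3))
      · rw [sum_union hdisj, Finset.sum_Icc_succ_top (by omega)]
        refine add_le_add hsum ?_
        have hinj : ∀ x ∈ Icc 1 (p - 1), ∀ y ∈ Icc 1 (p - 1),
            p ^ (v + 1) * x = p ^ (v + 1) * y → x = y := fun x _ y _ h =>
          Nat.eq_of_mul_eq_mul_left (pow_pos hp.pos _) h
        rw [sum_image hinj]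
        have hL : (vonMangoldt (N + 1) : ℝ) = Real.log p := by
          rw [← hpk, vonMangoldt_apply_pow (Nat.succ_ne_zero v), vonMangoldt_apply_prime hp]
        have hH : Real.log p ≤ ∑ d ∈ Icc 1 (p - 1), ((d : ℝ))⁻¹ := by
          have h1 := log_add_one_le_harmonic (p - 1)
          have h2 : p - 1 + 1 = p := by have := hp.two_le; omega
          rw [h2, harmonic_eq_sum_Icc] at h1
          push_cast at h1
          exact h1
        have hN0 : (0 : ℝ) < ((N + 1 : ℕ) : ℝ) := by positivity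
        rw [hL]
        calc Real.log p / ((N + 1 : ℕ) : ℝ)
            ≤ (∑ d ∈ Icc 1 (p - 1), ((d : ℝ))⁻¹) / ((N + 1 : ℕ) : ℝ) :=
              div_le_div_of_nonneg_right hH hN0.le
          _ = ∑ d ∈ Icc 1 (p - 1), (1 : ℝ) / ((p ^ (v + 1) * d : ℕ) : ℝ) := by
              rw [Finset.sum_div]
              refine Finset.sum_congr rfl fun d _ => ?_
              rw [← hpk]
              push_cast
              rw [one_div, mul_inv, div_eq_mul_inv, mul_comm]
      · rw [card_union_of_disjoint hdisj, image_card (pow_pos hp.pos _)]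
        have h1 : (Icc 1 (p - 1)).card ≤ N := by omega
        nlinarith
    · refine ⟨B, m, hNC, ?_, ?_, ?_⟩
      · intro r c hr
        rw [hm r c hr]
        constructor
        · intro h; omega
        · intro h
          rcases Nat.lt_or_ge (r ^ c) (N + 1) with h1 | h1
          · omega
          · exfalso
            have h2 : r ^ c = N + 1 := by omega
            have hc0 : c ≠ 0 := by
              rintro rfl
              rw [pow_zero] at h2
              omega
            exact hpp ⟨r, c, Nat.prime_iff.mp hr, Nat.pos_of_ne_zero hc0, h2⟩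
      · rw [Finset.sum_Icc_succ_top (by omega), (vonMangoldt_eq_zero_iff).mpr hpp]
        simpa using hsum
      · nlinarith

/-- Adding extra powers of two. -/
lemma extend {B : Finset ℕ} {m : ℕ} (h : NC B m) (j : ℕ) : ∃ (B' : Finset ℕ) (m' : ℕ),
    NC B' m' ∧ B ⊆ B' ∧ B'.card = B.card + j ∧ m ∣ m' ∧
    (∀ P : ℕ, P.Prime → P ≠ 2 → ¬ P ∣ m → ¬ P ∣ m') := by
  classical
  induction j with
  | zero => exact ⟨B, m, h, Subset.rfl, rfl, dvd_rfl, fun _ _ _ h => h⟩
  | succ j ih =>
    obtain ⟨B', m', h', hsub, hcard, hdvd, hP⟩ := ih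
    obtain ⟨v, w, hw, hvw⟩ := Nat.exists_eq_pow_mul_and_not_dvd h'.pos.ne' 2 (by norm_num)
    subst hvw
    have hdisj := step_disjoint Nat.prime_two hw h'.dvd {1}
    refine ⟨B' ∪ ({1} : Finset ℕ).image (fun d => 2 ^ (v + 1) * d), 2 ^ (v + 1) * w,
      h'.step Nat.prime_two hw {1} (by simp) (by simp), hsub.trans subset_union_left, ?_, ?_, ?_⟩
    · rw [card_union_of_disjoint hdisj, image_card (by positivity), hcard]
      simp; ring
    · exact dvd_trans hdvd ⟨2, by rw [pow_succ]; ring⟩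
    · intro P hPp hP2 hPm hcon
      apply hP P hPp hP2 hPm
      rcases hPp.dvd_mul.mp hcon with h1 | h1
      · exact absurd ((Nat.prime_dvd_prime_iff_eq hPp Nat.prime_two).mp
          (hPp.dvd_of_dvd_pow h1)) hP2
      · exact dvd_mul_of_dvd_right h1 _

open ArithmeticFunction in
lemma exists_irreducible (P : ℕ) (hP : P.Prime) (hP5 : 5 ≤ P) (k : ℕ)
    (hk : P * (P + 1) ≤ 2 * k) :
    ∃ S : Finset ℕ, IsIrreducibleCoveringSet S ∧ S.card = k ∧
      ∑ j ∈ Icc 1 (P - 1), (vonMangoldt j : ℝ) / j ≤ ∑ n ∈ S, (1 : ℝ) / n := by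
  classical
  obtain ⟨B, m, hNC, hm, hsum, hcard⟩ := chain (P - 1) (by omega)
  have hPm : ¬ P ∣ m := by
    intro h
    have := (hm P 1 hP).mp (by simpa using h)
    rw [pow_one] at this
    omega
  have hcard2 : B.card + P ≤ k := by
    have h1 : P - 1 + 1 = P := by omega
    rw [h1] at hcard
    obtain ⟨Q, rfl⟩ : ∃ Q, P = Q + 1 := ⟨P - 1, by omega⟩
    simp only [Nat.add_sub_cancel] at hcard
    nlinarith
  obtain ⟨B', m', hNC', hsub, hcard', hdvd, hPr⟩ := extend hNC (k - P - B.card)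
  have hPm' : ¬ P ∣ m' := hPr P hP (by omega) hPm
  -- all numbers below `P` divide `m`
  have hdiv : ∀ d ∈ Icc 1 (P - 1), d ∣ m' := by
    intro d hd
    rw [mem_Icc] at hd
    refine dvd_trans ?_ hdvd
    rw [Nat.dvd_iff_prime_pow_dvd_dvd]
    intro r c hr hrc
    refine (hm r c hr).mpr ?_
    have := Nat.le_of_dvd (by omega) hrc
    omega
  have hm'pos := hNC'.pos
  have hlt : P - 1 < m' := by
    have h1 : P - 1 ∣ m' := hdiv _ (by rw [mem_Icc]; omega)
    have h2 : P - 2 ∣ m' := hdiv _ (by rw [mem_Icc]; omega)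
    have h3 := Nat.le_of_dvd hm'pos h1
    rcases Nat.lt_or_ge (P - 1) m' with h4 | h4
    · exact h4
    · exfalso
      have h5 : m' = P - 1 := le_antisymm h4 h3
      rw [h5] at h2
      have h6 : P - 1 = (P - 2) + 1 := by omega
      rw [h6] at h2
      have h7 : P - 2 ∣ 1 := (Nat.dvd_add_right (dvd_refl _)).mp h2
      have := Nat.le_of_dvd one_pos h7
      omega
  have hnotin : m' ∉ Icc 1 (P - 1) := by
    rw [mem_Icc]; omega
  have hDcard : (insert m' (Icc 1 (P - 1))).card = P := by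
    rw [card_insert_of_notMem hnotin, Nat.card_Icc]; omega
  have hDdvd : ∀ d ∈ insert m' (Icc 1 (P - 1)), d ∣ m' := by
    intro d hd
    rcases mem_insert.mp hd with rfl | h
    · exact dvd_rfl
    · exact hdiv d h
  have hS := hNC'.close hP hPm' (insert m' (Icc 1 (P - 1))) hDdvd (mem_insert_self _ _) hDcard
  have hdisj : Disjoint B' ((insert m' (Icc 1 (P - 1))).image (fun d => P * d)) := by
    have := step_disjoint (v := 0) hP hPm' (B := B') (by simpa using hNC'.dvd)
      (insert m' (Icc 1 (P - 1)))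
    simpa using this
  refine ⟨_, hS, ?_, ?_⟩
  · rw [card_union_of_disjoint hdisj, image_card hP.pos, hDcard, hcard']
    omega
  · refine hsum.trans (sum_le_sum_of_subset_of_nonneg (hsub.trans subset_union_left) ?_)
    intro n _ _
    positivity

open ArithmeticFunction in
/-- Legendre's identity. -/
lemma log_factorial_eq (N : ℕ) :
    Real.log (N.factorial : ℝ) = ∑ j ∈ Icc 1 N, (vonMangoldt j : ℝ) * ((N / j : ℕ) : ℝ) := by
  induction N with
  | zero => simp
  | succ N ih =>
    have h1 : Real.log ((N + 1).factorial : ℝ) =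
        Real.log (N.factorial : ℝ) + Real.log ((N + 1 : ℕ) : ℝ) := by
      rw [Nat.factorial_succ]
      push_cast
      rw [Real.log_mul (by positivity) (by positivity)]
      ring
    have h2 : ∀ j ∈ Icc 1 (N + 1), (vonMangoldt j : ℝ) * (((N + 1) / j : ℕ) : ℝ) =
        (vonMangoldt j : ℝ) * ((N / j : ℕ) : ℝ) +
          (if j ∣ N + 1 then (vonMangoldt j : ℝ) else 0) := by
      intro j _
      rw [Nat.succ_div]
      split_ifs <;> push_cast <;> ring
    rw [Finset.sum_congr rfl h2, Finset.sum_add_distrib, Finset.sum_Icc_succ_top (by omega), h1, ih]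
    have h3 : N / (N + 1) = 0 := Nat.div_eq_of_lt (Nat.lt_succ_self N)
    rw [h3]
    have h4 : ∑ j ∈ Icc 1 (N + 1), (if j ∣ N + 1 then (vonMangoldt j : ℝ) else 0) =
        Real.log ((N + 1 : ℕ) : ℝ) := by
      rw [← Finset.sum_filter, ← vonMangoldt_sum (n := N + 1)]
      refine Finset.sum_congr ?_ fun _ _ => rfl
      ext d
      simp only [mem_filter, mem_Icc, Nat.mem_divisors]
      constructor
      · rintro ⟨_, h⟩; exact ⟨h, by omega⟩
      · rintro ⟨h, _⟩
        exact ⟨⟨Nat.pos_of_dvd_of_pos h (by omega), Nat.le_of_dvd (by omega) h⟩, h⟩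
    rw [h4]
    simp

open ArithmeticFunction in
lemma mertens_lower (N : ℕ) (hN : 1 ≤ N) :
    Real.log N - 1 ≤ ∑ j ∈ Icc 1 N, (vonMangoldt j : ℝ) / j := by
  have hN0 : (0 : ℝ) < N := by exact_mod_cast hN
  have h1 : Real.log (N.factorial : ℝ) ≤ N * ∑ j ∈ Icc 1 N, (vonMangoldt j : ℝ) / j := by
    rw [log_factorial_eq, Finset.mul_sum]
    refine Finset.sum_le_sum fun j hj => ?_
    have hj1 : (1 : ℝ) ≤ j := by exact_mod_cast (mem_Icc.mp hj).1
    have h2 : ((N / j : ℕ) : ℝ) ≤ (N : ℝ) / j := Nat.cast_div_le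
    have h3 : (0 : ℝ) ≤ vonMangoldt j := vonMangoldt_nonneg
    calc (vonMangoldt j : ℝ) * ((N / j : ℕ) : ℝ) ≤ (vonMangoldt j : ℝ) * ((N : ℝ) / j) :=
          mul_le_mul_of_nonneg_left h2 h3
      _ = N * ((vonMangoldt j : ℝ) / j) := by ring
  have h2 : (N : ℝ) * Real.log N - N ≤ Real.log (N.factorial : ℝ) := by
    have h3 := Real.pow_div_factorial_le_exp (x := (N : ℝ)) hN0.le N
    have hf : (0 : ℝ) < (N.factorial : ℝ) := by exact_mod_cast N.factorial_pos
    have h4 := Real.log_le_log (by positivity) h3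
    rw [Real.log_div (by positivity) hf.ne', Real.log_pow, Real.log_exp] at h4
    linarith
  have h3 : (N : ℝ) * (Real.log N - 1) ≤ N * ∑ j ∈ Icc 1 N, (vonMangoldt j : ℝ) / j := by
    linarith
  exact le_of_mul_le_mul_left h3 hN0



/-- The trivial upper bound for `k` distinct integers `> 1`. -/
lemma sum_le_harmonic (k : ℕ) : ∀ S : Finset ℕ, (∀ n ∈ S, 1 < n) → S.card = k →
    ∑ n ∈ S, (1 : ℝ) / n ≤ ∑ i ∈ range k, (1 : ℝ) / ((i : ℝ) + 2) := by
  classical
  induction k with
  | zero =>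
    intro S _ hS
    rw [card_eq_zero] at hS
    subst hS
    simp
  | succ k ih =>
    intro S hS hcard
    have hne : S.Nonempty := by rw [← card_pos]; omega
    have hmax : S.max' hne ∈ S := S.max'_mem hne
    have hsub : S ⊆ Icc 2 (S.max' hne) := fun n hn => by
      rw [mem_Icc]; exact ⟨hS n hn, S.le_max' n hn⟩
    have hc := card_le_card hsub
    rw [Nat.card_Icc] at hc
    have hge : k + 2 ≤ S.max' hne := by omega
    rw [← Finset.sum_erase_add _ _ hmax, Finset.sum_range_succ]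
    refine add_le_add (ih _ (fun n hn => hS n (mem_of_mem_erase hn)) ?_) ?_
    · rw [card_erase_of_mem hmax, hcard]; rfl
    · have h2 : ((k : ℝ) + 2) ≤ (S.max' hne : ℕ) := by exact_mod_cast hge
      exact one_div_le_one_div_of_le (by positivity) h2

lemma harmonic_tail_le_log (k : ℕ) :
    ∑ i ∈ range k, (1 : ℝ) / ((i : ℝ) + 2) ≤ Real.log ((k : ℝ) + 1) := by
  have h := harmonic_le_one_add_log (k + 1)
  have h2 : ((harmonic (k + 1) : ℚ) : ℝ) = 1 + ∑ i ∈ range k, (1 : ℝ) / ((i : ℝ) + 2) := by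
    unfold harmonic
    rw [Finset.sum_range_succ']
    push_cast
    rw [add_comm]
    congr 1
    · norm_num
    · refine Finset.sum_congr rfl fun i _ => ?_
      rw [one_div]
      congr 1
      ring
  rw [h2] at h
  push_cast at h
  linarith

lemma bddAbove (k : ℕ) : BddAbove {s : ℝ | ∃ M : Finset ℕ, IsIrreducibleCoveringSet M ∧
    M.card = k ∧ reciprocalSum M = s} := by
  refine ⟨Real.log ((k : ℝ) + 1), ?_⟩
  rintro s ⟨M, hM, hk, rfl⟩
  exact (sum_le_harmonic k M hM.1.1 hk).trans (harmonic_tail_le_log k)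

lemma upper (k : ℕ) : maxReciprocalSum k ≤ Real.log ((k : ℝ) + 1) := by
  refine Real.sSup_le ?_ (Real.log_nonneg (by linarith [Nat.cast_nonneg (α := ℝ) k]))
  rintro s ⟨M, hM, hk, rfl⟩
  exact (sum_le_harmonic k M hM.1.1 hk).trans (harmonic_tail_le_log k)

lemma max_nonneg (k : ℕ) : 0 ≤ maxReciprocalSum k := by
  refine Real.sSup_nonneg ?_
  rintro s ⟨M, _, _, rfl⟩
  exact Finset.sum_nonneg fun n _ => by positivity

lemma lower (k : ℕ) : Real.log k / 2 - 2 ≤ maxReciprocalSum k := by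
  rcases Nat.lt_or_ge k 48 with hk | hk
  · refine le_trans ?_ (max_nonneg k)
    rcases Nat.eq_zero_or_pos k with h0 | h0
    · subst h0; simp
    · have h1 : Real.log k ≤ Real.log 54 :=
        Real.log_le_log (by exact_mod_cast h0) (by exact_mod_cast (by omega : k ≤ 54))
      have h2 : Real.log 54 ≤ 4 := by
        rw [Real.log_le_iff_le_exp (by norm_num)]
        have h3 := Real.exp_one_gt_d9
        have h4 : Real.exp 4 = Real.exp 1 ^ 4 := by
          rw [← Real.exp_nat_mul]; norm_num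
        rw [h4]
        calc (54 : ℝ) ≤ 2.7182818283 ^ 4 := by norm_num
          _ ≤ Real.exp 1 ^ 4 := pow_le_pow_left₀ (by norm_num) h3.le 4
      linarith
  · set x := Nat.sqrt (k / 3) with hx
    have hx4 : 4 ≤ x := by
      rw [hx, Nat.le_sqrt]; omega
    have hxs : x * x ≤ k / 3 := Nat.sqrt_le (k / 3)
    have hxl : k / 3 < (x + 1) * (x + 1) := Nat.lt_succ_sqrt (k / 3)
    obtain ⟨P, hP, hxP, hP2⟩ := Nat.exists_prime_lt_and_le_two_mul x (by omega)
    have hk3 : 3 * (x * x) ≤ k := by omega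
    have hcond : P * (P + 1) ≤ 2 * k := by
      calc P * (P + 1) ≤ (2 * x) * (2 * x + 1) := Nat.mul_le_mul hP2 (by omega)
        _ ≤ 2 * k := by nlinarith
    obtain ⟨S, hS, hSk, hsum⟩ := exists_irreducible P hP (by omega) k hcond
    have h1 : reciprocalSum S ≤ maxReciprocalSum k := le_csSup (bddAbove k) ⟨S, hS, hSk, rfl⟩
    refine le_trans ?_ h1
    refine le_trans ?_ hsum
    refine le_trans ?_ (mertens_lower (P - 1) (by omega))
    have h2 : Real.log (x : ℝ) ≤ Real.log ((P - 1 : ℕ) : ℝ) :=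
      Real.log_le_log (by exact_mod_cast (by omega : 0 < x)) (by exact_mod_cast (by omega))
    have h3 : (k : ℝ) ≤ (75 / 16) * (x : ℝ) ^ 2 := by
      have h4 : k < 3 * ((x + 1) * (x + 1)) := by omega
      have h5 : (k : ℝ) < 3 * (((x : ℝ) + 1) * ((x : ℝ) + 1)) := by exact_mod_cast h4
      have h6 : (4 : ℝ) ≤ x := by exact_mod_cast hx4
      nlinarith
    have hx0 : (0 : ℝ) < x := by exact_mod_cast (by omega : 0 < x)
    have hk0 : (0 : ℝ) < k := by exact_mod_cast (by omega : 0 < k)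
    have h7 : Real.log k ≤ Real.log (75 / 16) + 2 * Real.log x := by
      have := Real.log_le_log hk0 h3
      rw [Real.log_mul (by norm_num) (by positivity), Real.log_pow] at this
      push_cast at this
      exact this
    have h8 : Real.log (75 / 16) ≤ 2 := by
      rw [Real.log_le_iff_le_exp (by norm_num)]
      have h3 := Real.exp_one_gt_d9
      have h4 : Real.exp 2 = Real.exp 1 ^ 2 := by
        rw [← Real.exp_nat_mul]; norm_num
      rw [h4]
      calc (75 / 16 : ℝ) ≤ 2.7182818283 ^ 2 := by norm_num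
        _ ≤ Real.exp 1 ^ 2 := pow_le_pow_left₀ (by norm_num) h3.le 2
    linarith

/-- The order of growth of `M(k)` is `log k`: for each `k` one has
`(log k)/2 - 2 ≤ M(k) ≤ log (k+1)`, hence `M(k) = Θ(log k)`; in particular `M(k)` is unbounded. -/
theorem result :
    (∀ k : ℕ, Real.log k / 2 - 2 ≤ maxReciprocalSum k ∧
      maxReciprocalSum k ≤ Real.log ((k : ℝ) + 1)) ∧
    maxReciprocalSum =Θ[Filter.atTop] (fun k : ℕ => Real.log k) := by
  refine ⟨fun k => ⟨lower k, upper k⟩, ?_, ?_⟩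
  · refine Asymptotics.IsBigO.of_bound 2 ?_
    filter_upwards [Filter.eventually_ge_atTop 2] with k hk
    have hk2 : (2 : ℝ) ≤ k := by exact_mod_cast hk
    have hlog : 0 ≤ Real.log k := Real.log_nonneg (by linarith)
    rw [Real.norm_of_nonneg (max_nonneg k), Real.norm_of_nonneg hlog]
    refine (upper k).trans ?_
    have h1 : (k : ℝ) + 1 ≤ (k : ℝ) ^ 2 := by nlinarith
    calc Real.log ((k : ℝ) + 1) ≤ Real.log ((k : ℝ) ^ 2) := Real.log_le_log (by linarith) h1
      _ = 2 * Real.log k := by rw [Real.log_pow]; push_cast; ring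
  · refine Asymptotics.IsBigO.of_bound 4 ?_
    have htend : Filter.Tendsto (fun k : ℕ => Real.log (k : ℝ)) Filter.atTop Filter.atTop :=
      Real.tendsto_log_atTop.comp tendsto_natCast_atTop_atTop
    filter_upwards [Filter.eventually_ge_atTop 2, htend.eventually_ge_atTop 8] with k hk hk8
    rw [Real.norm_of_nonneg (max_nonneg k), Real.norm_of_nonneg (by linarith)]
    have := lower k
    linarith

end Pool.Agent.Results.MP_cc5630_nt.GrowthOrder
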